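import Pool.Agent.HP778.KZ5

/-!
# Sumsets and exponentials which are periods of dimension one
-/

set_option autoImplicit false

namespace Pool.Agent.T9h52.EP

open Module Finset
open Pool.Agent.H301R2.SSE (QB mem_QB Lt)
open scoped Pointwise

theorem indep_of_mul {s : Finset ℂ} {c : ℂ} (hc : c ≠ 0)
    (h : LinearIndependent QB (fun x : s => (x : ℂ))) :
    LinearIndependent QB (fun x : s => c * (x : ℂ)) := by
  have h1 := h.map' (LinearMap.mulLeft QB c) (by
    rw [LinearMap.ker_eq_bot']
    intro m hm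
    rw [LinearMap.mulLeft_apply] at hm
    exact (mul_eq_zero.mp hm).resolve_left hc)
  exact h1

theorem indep_sub {s t : Finset ℂ} {c : ℂ} (hst : ∀ x ∈ s, c * x ∈ t) (hc : c ≠ 0)
    (h : LinearIndependent QB (fun x : t => (x : ℂ))) :
    LinearIndependent QB (fun x : s => (x : ℂ)) := by
  have h1 : LinearIndependent QB (fun x : s => c * (x : ℂ)) := by
    have := h.comp (fun x : s => (⟨c * x, hst x x.2⟩ : t)) (by
      intro a b hab
      apply Subtype.ext
      have h2 : c * (a : ℂ) = c * (b : ℂ) := congrArg Subtype.val hab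
      exact mul_left_cancel₀ hc h2)
    exact this
  rw [Fintype.linearIndependent_iff] at h1 ⊢
  intro g hg
  apply h1 g
  have : ∑ i, g i • (c * (i : ℂ)) = c * ∑ i, g i • (i : ℂ) := by
    rw [Finset.mul_sum]
    exact Finset.sum_congr rfl fun i _ => by rw [mul_smul_comm]
  rw [this, hg, mul_zero]

/-- The sumset inequality. -/
theorem card_mul_le (A S : Finset ℂ)
    (h : LinearIndependent QB (fun x : (A * S : Finset ℂ) => (x : ℂ))) {y : ℂ} (hy : y ≠ 0)
    (hS : ∀ s ∈ S, y * s ∈ Lt) :
    A.card * S.card ≤ (A * S).card + A.card * (A.card - 1) := by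
  classical
  rcases A.eq_empty_or_nonempty with rfl | ⟨a, ha⟩
  · simp
  rcases S.eq_empty_or_nonempty with rfl | ⟨s, hs⟩
  · simp
  have h0 : ∀ x ∈ A * S, x ≠ 0 := by
    intro x hx hx0
    exact h.ne_zero ⟨x, hx⟩ hx0
  have has : a * s ≠ 0 := h0 _ (mul_mem_mul ha hs)
  have ha0 : a ≠ 0 := left_ne_zero_of_mul has
  have hs0 : s ≠ 0 := right_ne_zero_of_mul has
  have hA : LinearIndependent QB (fun x : A => (x : ℂ)) := by
    refine indep_sub (c := s) (t := A * S) ?_ hs0 h
    intro x hx
    rw [mul_comm s x]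
    exact mul_mem_mul hx hs
  have hS' : LinearIndependent QB (fun x : S => (x : ℂ)) :=
    indep_sub (c := a) (t := A * S) (fun x hx => mul_mem_mul ha hx) ha0 h
  have hS2 := indep_of_mul hy hS'
  have hAS2 := indep_of_mul hy h
  have e1 := finrank_span_eq_card hA
  have e2 := finrank_span_eq_card hS2
  have e3 := finrank_span_eq_card hAS2
  rw [Fintype.card_coe] at e1 e2 e3
  have hf : ∀ {t : Finset ℂ} (f : t → ℂ),
      FiniteDimensional QB (Submodule.span QB (Set.range f)) := fun f =>
    FiniteDimensional.span_of_finite QB (Set.finite_range _)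
  have := hf (fun x : A => (x : ℂ))
  have := hf (fun x : S => y * (x : ℂ))
  have := hf (fun x : (A * S : Finset ℂ) => y * (x : ℂ))
  have key := Pool.Agent.W254.HP.product_le
    (Submodule.span QB (Set.range (fun x : A => (x : ℂ))))
    (Submodule.span QB (Set.range (fun x : S => y * (x : ℂ))))
    (Submodule.span QB (Set.range (fun x : (A * S : Finset ℂ) => y * (x : ℂ)))) ?_ ?_
  · rw [e1, e2, e3] at key
    exact key
  · rw [Submodule.span_le]
    rintro _ ⟨x, rfl⟩
    exact hS x x.2
  · intro x hx w hw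
    induction hx using Submodule.span_induction with
    | mem x hx =>
      obtain ⟨x, rfl⟩ := hx
      induction hw using Submodule.span_induction with
      | mem w hw =>
        obtain ⟨w, rfl⟩ := hw
        refine Submodule.subset_span ⟨⟨(x : ℂ) * (w : ℂ), mul_mem_mul x.2 w.2⟩, ?_⟩
        dsimp only
        ring
      | zero => rw [mul_zero]; exact Submodule.zero_mem _
      | add u v _ _ h1 h2 => rw [mul_add]; exact Submodule.add_mem _ h1 h2
      | smul c u _ h1 => rw [mul_smul_comm]; exact Submodule.smul_mem _ _ h1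
    | zero => rw [zero_mul]; exact Submodule.zero_mem _
    | add u v _ _ h1 h2 => rw [add_mul]; exact Submodule.add_mem _ h1 h2
    | smul c u _ h1 => rw [smul_mul_assoc]; exact Submodule.smul_mem _ _ h1

/-- The expansion inequality for the subspace of the multiples in `Lt`. -/
theorem dim_le (A S : Finset ℂ)
    (h : LinearIndependent QB (fun x : (A * S : Finset ℂ) => (x : ℂ))) (hS0 : S.Nonempty)
    {y : ℂ} (hy : y ≠ 0) (W : Submodule QB ℂ)
    (hWS : W ≤ Submodule.span QB (S : Set ℂ)) (hW : ∀ w ∈ W, y * w ∈ Lt) :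
    A.card * finrank QB W ≤ (A * S).card + A.card * (A.card - 1) := by
  classical
  rcases A.eq_empty_or_nonempty with rfl | ⟨a, ha⟩
  · simp
  obtain ⟨s, hs⟩ := hS0
  have h0 : ∀ x ∈ A * S, x ≠ 0 := by
    intro x hx hx0
    exact h.ne_zero ⟨x, hx⟩ hx0
  have has : a * s ≠ 0 := h0 _ (mul_mem_mul ha hs)
  have hs0 : s ≠ 0 := right_ne_zero_of_mul has
  have hA : LinearIndependent QB (fun x : A => (x : ℂ)) := by
    refine indep_sub (c := s) (t := A * S) ?_ hs0 h
    intro x hx
    rw [mul_comm s x]
    exact mul_mem_mul hx hs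
  have hAS2 := indep_of_mul hy h
  have e1 := finrank_span_eq_card hA
  have e3 := finrank_span_eq_card hAS2
  rw [Fintype.card_coe] at e1 e3
  have hf : ∀ {t : Finset ℂ} (f : t → ℂ),
      FiniteDimensional QB (Submodule.span QB (Set.range f)) := fun f =>
    FiniteDimensional.span_of_finite QB (Set.finite_range _)
  have := hf (fun x : A => (x : ℂ))
  have := hf (fun x : (A * S : Finset ℂ) => y * (x : ℂ))
  have hfS : FiniteDimensional QB (Submodule.span QB (S : Set ℂ)) :=
    FiniteDimensional.span_of_finite QB S.finite_toSet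
  have hfW : FiniteDimensional QB W := Submodule.finiteDimensional_of_le hWS
  have hinj : Function.Injective (LinearMap.mulLeft QB y) := by
    intro u v huv
    rw [LinearMap.mulLeft_apply, LinearMap.mulLeft_apply] at huv
    exact mul_left_cancel₀ hy huv
  have e2 : finrank QB (W.map (LinearMap.mulLeft QB y)) = finrank QB W :=
    (Submodule.equivMapOfInjective _ hinj W).finrank_eq.symm
  have key := Pool.Agent.W254.HP.product_le
    (Submodule.span QB (Set.range (fun x : A => (x : ℂ))))
    (W.map (LinearMap.mulLeft QB y))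
    (Submodule.span QB (Set.range (fun x : (A * S : Finset ℂ) => y * (x : ℂ)))) ?_ ?_
  · rw [e1, e2, e3] at key
    exact key
  · rintro _ ⟨w, hw, rfl⟩
    exact hW w hw
  · rintro x hx _ ⟨w, hw, rfl⟩
    rw [LinearMap.mulLeft_apply]
    have hw' := hWS hw
    clear hw
    induction hx using Submodule.span_induction with
    | mem x hx =>
      obtain ⟨x, rfl⟩ := hx
      induction hw' using Submodule.span_induction with
      | mem w hw =>
        refine Submodule.subset_span ⟨⟨(x : ℂ) * (w : ℂ), mul_mem_mul x.2 hw⟩, ?_⟩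
        dsimp only
        ring
      | zero => rw [mul_zero, mul_zero]; exact Submodule.zero_mem _
      | add u v _ _ h1 h2 => rw [mul_add, mul_add]; exact Submodule.add_mem _ h1 h2
      | smul c u _ h1 => rw [mul_smul_comm, mul_smul_comm]; exact Submodule.smul_mem _ _ h1
    | zero => rw [zero_mul]; exact Submodule.zero_mem _
    | add u v _ _ h1 h2 => rw [add_mul]; exact Submodule.add_mem _ h1 h2
    | smul c u _ h1 => rw [smul_mul_assoc]; exact Submodule.smul_mem _ _ h1

theorem exp_indep (T : Finset ℂ) (hT : ∀ a ∈ T, IsAlgebraic ℚ a) (c : ℂ → QB)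
    (h : ∑ a ∈ T, (c a : ℂ) * Complex.exp a = 0) : ∀ a ∈ T, c a = 0 := by
  intro a ha
  have := Pool.Agent.H340R2.LW.lindemann_weierstrass T (fun a => a) (fun a => (c a : ℂ)) hT
    (fun i _ => mem_QB.mp (c i).2) (fun x _ y _ hxy => hxy) h a ha
  exact Subtype.ext this

theorem exp_injOn {a b : ℂ} (ha : IsAlgebraic ℚ a) (hb : IsAlgebraic ℚ b)
    (h : Complex.exp a = Complex.exp b) : a = b := by
  classical
  by_contra hne
  have h1 := exp_indep {a, b} (by
    intro x hx
    rw [Finset.mem_insert, Finset.mem_singleton] at hx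
    rcases hx with rfl | rfl
    · exact ha
    · exact hb) (fun x => if x = a then 1 else -1) (by
      rw [Finset.sum_pair hne, if_pos rfl, if_neg (Ne.symm hne), h]
      push_cast
      ring) a (Finset.mem_insert_self _ _)
  rw [if_pos rfl] at h1
  exact one_ne_zero h1

theorem exp_image_indep (T : Finset ℂ) (hT : ∀ a ∈ T, IsAlgebraic ℚ a) :
    LinearIndependent QB (fun x : (T.image Complex.exp : Finset ℂ) => (x : ℂ)) := by
  classical
  rw [Fintype.linearIndependent_iff]
  intro g hg i
  have hinj : Set.InjOn Complex.exp (T : Set ℂ) := fun x hx y hy hxy =>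
    exp_injOn (hT x hx) (hT y hy) hxy
  let c : ℂ → QB := fun a => if h : Complex.exp a ∈ T.image Complex.exp then g ⟨_, h⟩ else 0
  have h1 : ∑ a ∈ T, (c a : ℂ) * Complex.exp a = 0 := by
    rw [← hg, ← Finset.sum_coe_sort T]
    refine Finset.sum_bij (fun a _ => ⟨Complex.exp a, Finset.mem_image_of_mem _ a.2⟩) ?_ ?_ ?_ ?_
    · intro a _; exact Finset.mem_univ _
    · intro a _ b _ hab
      exact Subtype.ext (hinj a.2 b.2 (congrArg Subtype.val hab))
    · rintro ⟨b, hb⟩ _
      obtain ⟨a, ha, rfl⟩ := Finset.mem_image.mp hb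
      exact ⟨⟨a, ha⟩, Finset.mem_univ _, rfl⟩
    · intro a _
      have : Complex.exp a ∈ T.image Complex.exp := Finset.mem_image_of_mem _ a.2
      simp only [c, dif_pos this]
      rw [Algebra.smul_def]
      rfl
  obtain ⟨a, ha, hai⟩ := Finset.mem_image.mp i.2
  have h2 := exp_indep T hT c h1 a ha
  have : Complex.exp a ∈ T.image Complex.exp := Finset.mem_image_of_mem _ ha
  simp only [c, dif_pos this] at h2
  rw [← h2]
  congr 1
  exact Subtype.ext hai.symm

theorem exp_image_add (A S : Finset ℂ) :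
    (A + S).image Complex.exp = A.image Complex.exp * S.image Complex.exp := by
  classical
  ext x
  simp only [Finset.mem_image, Finset.mem_add, Finset.mem_mul]
  constructor
  · rintro ⟨_, ⟨a, ha, s, hs, rfl⟩, rfl⟩
    exact ⟨_, ⟨a, ha, rfl⟩, _, ⟨s, hs, rfl⟩, (Complex.exp_add a s).symm⟩
  · rintro ⟨_, ⟨a, ha, rfl⟩, _, ⟨s, hs, rfl⟩, rfl⟩
    exact ⟨_, ⟨a, ha, s, hs, rfl⟩, Complex.exp_add a s⟩

/-- The sumset inequality for exponentials. -/
theorem card_mul_le_exp (A S : Finset ℂ) (hA : ∀ a ∈ A, IsAlgebraic ℚ a)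
    (hSa : ∀ a ∈ S, IsAlgebraic ℚ a) {y : ℂ} (hy : y ≠ 0)
    (hS : ∀ s ∈ S, y * Complex.exp s ∈ Lt) :
    A.card * S.card ≤ (A + S).card + A.card * (A.card - 1) := by
  classical
  have hAS : ∀ a ∈ A + S, IsAlgebraic ℚ a := by
    intro x hx
    obtain ⟨a, ha, s, hs, rfl⟩ := Finset.mem_add.mp hx
    exact (hA a ha).add (hSa s hs)
  have hcard : ∀ T : Finset ℂ, (∀ a ∈ T, IsAlgebraic ℚ a) →
      (T.image Complex.exp).card = T.card := fun T hT =>
    Finset.card_image_of_injOn fun x hx y hy hxy => exp_injOn (hT x hx) (hT y hy) hxy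
  have h1 := card_mul_le (A.image Complex.exp) (S.image Complex.exp) (by
    rw [← exp_image_add]
    exact exp_image_indep _ hAS) hy (by
      intro s hs
      obtain ⟨a, ha, rfl⟩ := Finset.mem_image.mp hs
      exact hS a ha)
  rw [← exp_image_add, hcard A hA, hcard S hSa, hcard _ hAS] at h1
  exact h1

/-- The expansion inequality for spaces generated by exponentials. -/
theorem dim_le_exp (A S : Finset ℂ) (hA : ∀ a ∈ A, IsAlgebraic ℚ a)
    (hSa : ∀ a ∈ S, IsAlgebraic ℚ a) (hS0 : S.Nonempty) {y : ℂ} (hy : y ≠ 0)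
    (W : Submodule QB ℂ) (hWS : W ≤ Submodule.span QB (Complex.exp '' (S : Set ℂ)))
    (hW : ∀ w ∈ W, y * w ∈ Lt) :
    A.card * finrank QB W ≤ (A + S).card + A.card * (A.card - 1) := by
  classical
  have hAS : ∀ a ∈ A + S, IsAlgebraic ℚ a := by
    intro x hx
    obtain ⟨a, ha, s, hs, rfl⟩ := Finset.mem_add.mp hx
    exact (hA a ha).add (hSa s hs)
  have hcard : ∀ T : Finset ℂ, (∀ a ∈ T, IsAlgebraic ℚ a) →
      (T.image Complex.exp).card = T.card := fun T hT =>
    Finset.card_image_of_injOn fun x hx y hy hxy => exp_injOn (hT x hx) (hT y hy) hxy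
  have h1 := dim_le (A.image Complex.exp) (S.image Complex.exp) (by
    rw [← exp_image_add]
    exact exp_image_indep _ hAS) (hS0.image _) hy W (by
      rw [Finset.coe_image]
      exact hWS) hW
  rw [← exp_image_add, hcard A hA, hcard _ hAS] at h1
  exact h1

end Pool.Agent.T9h52.EP
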