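import Pool.Agent.T9h52.EP.A

/-!
# Counting exponentials which are periods of dimension one
-/

set_option autoImplicit false

namespace Pool.Agent.T9h52.EP

open Module Finset
open Pool.Agent.H301R2.SSE (QB mem_QB Lt)
open scoped Pointwise

/-- The box. -/
def bx (r N : ℕ) : Finset (Fin r → ℕ) := Fintype.piFinset fun _ => Finset.range N

theorem mem_bx {r N : ℕ} {n : Fin r → ℕ} : n ∈ bx r N ↔ ∀ i, n i < N := by
  unfold bx
  simp

theorem card_bx (r N : ℕ) : (bx r N).card = N ^ r := by
  unfold bx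
  simp

/-- The space generated by the values of `f` at the points of the box. -/
noncomputable def V (r : ℕ) (f : (Fin r → ℕ) → ℂ) (N : ℕ) : Submodule QB ℂ :=
  Submodule.span QB (((bx r N).image f : Finset ℂ) : Set ℂ)

/-- Abstract dimension lemma. -/
theorem dimV (r : ℕ) (f : (Fin r → ℕ) → ℂ) (hf : Function.Injective f)
    (hmul : ∀ m n, f (m + n) = f m * f n)
    (hind : ∀ M, LinearIndependent QB (fun x : ((bx r M).image f : Finset ℂ) => (x : ℂ)))
    {y : ℂ} (hy : y ≠ 0) (N h : ℕ) (hN : N ≤ h ^ 2) (hh : 1 ≤ h)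
    (W : Submodule QB ℂ) (hWV : W ≤ V r f N) (hW : ∀ w ∈ W, y * w ∈ Lt) :
    finrank QB W ≤ (h + 1) ^ r + h ^ r - 1 := by
  classical
  have h4 : 0 < h ^ r := by positivity
  rcases ((bx r N).image f).eq_empty_or_nonempty with he | hne
  · have h0 : W = ⊥ := by
      rw [eq_bot_iff]
      refine hWV.trans ?_
      unfold V
      rw [he]
      simp
    rw [h0, finrank_bot]
    exact Nat.zero_le _
  have hsub : (bx r h).image f * (bx r N).image f ⊆ (bx r (h * (h + 1))).image f := by
    intro x hx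
    obtain ⟨u, hu, v, hv, rfl⟩ := Finset.mem_mul.mp hx
    obtain ⟨m, hm, rfl⟩ := Finset.mem_image.mp hu
    obtain ⟨n, hn, rfl⟩ := Finset.mem_image.mp hv
    refine Finset.mem_image.mpr ⟨m + n, ?_, hmul m n⟩
    rw [mem_bx]
    intro i
    have h1 := mem_bx.mp hm i
    have h2 := mem_bx.mp hn i
    rw [Pi.add_apply]
    nlinarith
  have hi : LinearIndependent QB
      (fun x : ((bx r h).image f * (bx r N).image f : Finset ℂ) => (x : ℂ)) := by
    have := (hind (h * (h + 1))).comp
      (fun x : ((bx r h).image f * (bx r N).image f : Finset ℂ) =>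
        (⟨x, hsub x.2⟩ : ((bx r (h * (h + 1))).image f : Finset ℂ))) (by
        intro a b hab
        rw [Subtype.mk.injEq] at hab
        exact Subtype.ext hab)
    exact this
  have key := dim_le ((bx r h).image f) ((bx r N).image f) hi hne hy W hWV hW
  have h3 := Finset.card_le_card hsub
  rw [Finset.card_image_of_injective _ hf, card_bx] at key
  rw [Finset.card_image_of_injective (bx r (h * (h + 1))) hf, card_bx, mul_pow] at h3
  have h5 : h ^ r * finrank QB W ≤ h ^ r * ((h + 1) ^ r + (h ^ r - 1)) := by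
    rw [mul_add]
    omega
  have h6 := Nat.le_of_mul_le_mul_left h5 h4
  omega

/-- The counting lemma as a consequence. -/
theorem count_of_dim {r : ℕ} {f : (Fin r → ℕ) → ℂ} (hf : Function.Injective f)
    (hind : ∀ M, LinearIndependent QB (fun x : ((bx r M).image f : Finset ℂ) => (x : ℂ)))
    {N : ℕ} (B : Finset (Fin r → ℕ)) (hB : B ⊆ bx r N) (W : Submodule QB ℂ)
    [FiniteDimensional QB W] (hBW : ∀ n ∈ B, f n ∈ W) : B.card ≤ finrank QB W := by
  classical
  have h1 : LinearIndependent QB (fun x : (B.image f : Finset ℂ) => (⟨x, by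
      obtain ⟨n, hn, hx⟩ := Finset.mem_image.mp x.2
      rw [← hx]
      exact hBW n hn⟩ : W)) := by
    rw [← LinearMap.linearIndependent_iff_of_injOn W.subtype
      (Subtype.val_injective.injOn)]
    have := (hind N).comp
      (fun x : (B.image f : Finset ℂ) =>
        (⟨x, Finset.image_subset_image hB x.2⟩ : ((bx r N).image f : Finset ℂ))) (by
        intro a b hab
        rw [Subtype.mk.injEq] at hab
        exact Subtype.ext hab)
    exact this
  have h2 := h1.fintype_card_le_finrank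
  rw [Fintype.card_coe, Finset.card_image_of_injective _ hf] at h2
  exact h2

theorem isAlgebraic_sum {r : ℕ} (α : Fin r → ℂ) (hα : ∀ i, IsAlgebraic ℚ (α i)) (n : Fin r → ℕ) :
    IsAlgebraic ℚ (∑ i, (n i : ℂ) * α i) := by
  have : IsIntegral ℚ (∑ i, (n i : ℂ) * α i) := by
    apply IsIntegral.sum
    intro i _
    have h := (isIntegral_algebraMap (R := ℚ) (A := ℂ) (x := (n i : ℚ))).mul (hα i).isIntegral
    simpa using h
  exact this.isAlgebraic

theorem exp_sum_injective {r : ℕ} (α : Fin r → ℂ) (hα : ∀ i, IsAlgebraic ℚ (α i))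
    (hl : LinearIndependent ℚ α) :
    Function.Injective fun n : Fin r → ℕ => Complex.exp (∑ i, (n i : ℂ) * α i) := by
  intro m n h
  have hal := isAlgebraic_sum α hα
  have h1 := exp_injOn (hal m) (hal n) h
  have h2 := Fintype.linearIndependent_iff.mp hl (fun i => (m i : ℚ) - (n i : ℚ)) (by
    have : ∑ i, ((m i : ℚ) - (n i : ℚ)) • α i
        = ∑ i, (m i : ℂ) * α i - ∑ i, (n i : ℂ) * α i := by
      rw [← Finset.sum_sub_distrib]
      refine Finset.sum_congr rfl fun i _ => ?_
      rw [Algebra.smul_def]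
      simp only [map_sub, map_natCast]
      ring
    rw [this, h1, sub_self])
  funext i
  have h3 := h2 i
  have h4 : (m i : ℚ) = (n i : ℚ) := by linarith
  exact_mod_cast h4

theorem exp_box_indep {r : ℕ} (α : Fin r → ℂ) (hα : ∀ i, IsAlgebraic ℚ (α i)) (M : ℕ) :
    LinearIndependent QB (fun x : ((bx r M).image
      (fun n : Fin r → ℕ => Complex.exp (∑ i, (n i : ℂ) * α i)) : Finset ℂ) => (x : ℂ)) := by
  classical
  have : (bx r M).image (fun n : Fin r → ℕ => Complex.exp (∑ i, (n i : ℂ) * α i))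
      = ((bx r M).image (fun n : Fin r → ℕ => ∑ i, (n i : ℂ) * α i)).image Complex.exp := by
    rw [Finset.image_image]
    rfl
  rw [this]
  apply exp_image_indep
  intro a ha
  obtain ⟨n, -, rfl⟩ := Finset.mem_image.mp ha
  exact isAlgebraic_sum α hα n

theorem dim_exp {r : ℕ} (α : Fin r → ℂ) (hα : ∀ i, IsAlgebraic ℚ (α i))
    (hl : LinearIndependent ℚ α) {y : ℂ} (hy : y ≠ 0) (N h : ℕ) (hN : N ≤ h ^ 2) (hh : 1 ≤ h)
    (W : Submodule QB ℂ)
    (hWV : W ≤ V r (fun n : Fin r → ℕ => Complex.exp (∑ i, (n i : ℂ) * α i)) N)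
    (hW : ∀ w ∈ W, y * w ∈ Lt) : finrank QB W ≤ (h + 1) ^ r + h ^ r - 1 := by
  classical
  refine dimV r (fun n : Fin r → ℕ => Complex.exp (∑ i, (n i : ℂ) * α i))
    (exp_sum_injective α hα hl) ?_ (exp_box_indep α hα) hy N h hN hh W hWV hW
  intro m n
  rw [← Complex.exp_add, ← Finset.sum_add_distrib]
  congr 1
  refine Finset.sum_congr rfl fun i _ => ?_
  rw [Pi.add_apply]
  push_cast
  ring

/-- Monomials in algebraically independent numbers. -/
theorem monomial_indep {r : ℕ} (t : Fin r → ℂ) (ht : AlgebraicIndependent ℚ t) :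
    LinearIndependent QB (fun n : Fin r → ℕ => ∏ i, t i ^ n i) := by
  classical
  have h1 : AlgebraicIndependent QB t := AlgebraicIndependent.algebraicClosure ht
  have h2 : LinearIndependent QB
      (fun n : Fin r →₀ ℕ => MvPolynomial.monomial n (1 : QB)) := by
    have := (MvPolynomial.basisMonomials (Fin r) QB).linearIndependent
    rwa [MvPolynomial.coe_basisMonomials] at this
  have h3 := h2.map' (MvPolynomial.aeval t : MvPolynomial (Fin r) QB →ₐ[QB] ℂ).toLinearMap (by
    rw [LinearMap.ker_eq_bot]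
    exact h1)
  have h4 := h3.comp (fun n : Fin r → ℕ => Finsupp.equivFunOnFinite.symm n)
    (Equiv.injective _)
  have h5 : (fun n : Fin r → ℕ => ∏ i, t i ^ n i)
      = (((MvPolynomial.aeval t : MvPolynomial (Fin r) QB →ₐ[QB] ℂ).toLinearMap
        ∘ fun n : Fin r →₀ ℕ => MvPolynomial.monomial n (1 : QB))
        ∘ fun n : Fin r → ℕ => Finsupp.equivFunOnFinite.symm n) := by
    funext n
    simp only [Function.comp_apply, AlgHom.toLinearMap_apply, MvPolynomial.aeval_monomial,
      map_one, one_mul]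
    rw [Finsupp.prod_fintype]
    · rfl
    · intro i
      exact pow_zero _
  rw [h5]
  exact h4

theorem mon_box_indep {r : ℕ} (t : Fin r → ℂ) (ht : AlgebraicIndependent ℚ t) (M : ℕ) :
    LinearIndependent QB (fun x : ((bx r M).image
      (fun n : Fin r → ℕ => ∏ i, t i ^ n i) : Finset ℂ) => (x : ℂ)) := by
  classical
  have h6 : LinearIndepOn QB id (Set.range fun n : Fin r → ℕ => ∏ i, t i ^ n i) :=
    (monomial_indep t ht).linearIndepOn_id
  refine h6.mono ?_
  intro x hx
  rw [Finset.mem_coe] at hx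
  obtain ⟨n, -, rfl⟩ := Finset.mem_image.mp hx
  exact ⟨n, rfl⟩

theorem dim_mon {r : ℕ} (t : Fin r → ℂ) (ht : AlgebraicIndependent ℚ t) {y : ℂ} (hy : y ≠ 0)
    (N h : ℕ) (hN : N ≤ h ^ 2) (hh : 1 ≤ h) (W : Submodule QB ℂ)
    (hWV : W ≤ V r (fun n : Fin r → ℕ => ∏ i, t i ^ n i) N)
    (hW : ∀ w ∈ W, y * w ∈ Lt) : finrank QB W ≤ (h + 1) ^ r + h ^ r - 1 := by
  classical
  refine dimV r (fun n : Fin r → ℕ => ∏ i, t i ^ n i) (monomial_indep t ht).injective ?_
    (mon_box_indep t ht) hy N h hN hh W hWV hW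
  intro m n
  rw [← Finset.prod_mul_distrib]
  refine Finset.prod_congr rfl fun i _ => ?_
  rw [Pi.add_apply, pow_add]

/-- Values of polynomials are in the space generated by the monomials. -/
theorem aeval_mem_V {r : ℕ} (t : Fin r → ℂ) (N : ℕ) (P : MvPolynomial (Fin r) QB)
    (hP : ∀ i, P.degreeOf i < N) :
    MvPolynomial.aeval t P ∈ V r (fun n : Fin r → ℕ => ∏ i, t i ^ n i) N := by
  classical
  rw [MvPolynomial.aeval_def, MvPolynomial.eval₂_eq']
  apply Submodule.sum_mem
  intro d hd
  rw [← Algebra.smul_def]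
  apply Submodule.smul_mem
  refine Submodule.subset_span ?_
  rw [Finset.mem_coe, Finset.mem_image]
  refine ⟨fun i => d i, mem_bx.mpr fun i => ?_, rfl⟩
  exact lt_of_le_of_lt (MvPolynomial.monomial_le_degreeOf i hd) (hP i)

end Pool.Agent.T9h52.EP
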